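import Mathlib

/-!
A spectrahedral cone in dimension five which is not projectionally exposed.
-/

set_option autoImplicit false

namespace Pool.Agent.Results.MP_55559b_an.NotPExposed

open Matrix

/-- The spectrahedral cone `{x ∈ ℝⁿ : x₁A₁ + ⋯ + xₙAₙ ⪰ 0}` of a family of `m × m` matrices. -/
def spectrahedralCone {n m : ℕ} (A : Fin n → Matrix (Fin m) (Fin m) ℝ) : Set (Fin n → ℝ) :=
  {x | (∑ i, x i • A i).PosSemidef}

/-- `F` is a face of the cone `K`: a closed convex subcone `F ⊆ K` such that `x, y ∈ K` and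
`x + y ∈ F` imply `x, y ∈ F`. -/
structure IsFace {n : ℕ} (K F : Set (Fin n → ℝ)) : Prop where
  isClosed : IsClosed F
  zero_mem : (0 : Fin n → ℝ) ∈ F
  add_mem : ∀ x ∈ F, ∀ y ∈ F, x + y ∈ F
  smul_mem : ∀ c : ℝ, 0 ≤ c → ∀ x ∈ F, c • x ∈ F
  subset : F ⊆ K
  face : ∀ x ∈ K, ∀ y ∈ K, x + y ∈ F → x ∈ F ∧ y ∈ F

/-- `F` is projectionally exposed in `K`: `F = P(K)` for some linear `P` with `P ∘ P = P`. -/
def IsProjectionallyExposed {n : ℕ} (K F : Set (Fin n → ℝ)) : Prop :=
  ∃ P : (Fin n → ℝ) →ₗ[ℝ] (Fin n → ℝ), P ∘ₗ P = P ∧ P '' K = F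

/-- The matrix pencil of the example, as a function of `x ∈ ℝ⁵`. -/
def pencil (x : Fin 5 → ℝ) : Matrix (Fin 6) (Fin 6) ℝ :=
  !![x 0, 0, 0, 0, 0, 0;
     0, x 1, 0, 0, 0, 0;
     0, 0, x 2, 0, 0, 0;
     0, 0, 0, x 3, 0, 0;
     0, 0, 0, 0, x 0 + x 1 + x 2 + x 3, x 0 + x 1 - x 2 - x 3;
     0, 0, 0, 0, x 0 + x 1 - x 2 - x 3, x 4]

/-- The five coefficient matrices of the example. -/
def coeff (i : Fin 5) : Matrix (Fin 6) (Fin 6) ℝ := pencil (Pi.single i 1)

lemma sum_coeff (x : Fin 5 → ℝ) : ∑ i, x i • coeff i = pencil x := by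
  ext a b
  simp only [Fin.sum_univ_five, Matrix.add_apply, Matrix.smul_apply, smul_eq_mul, coeff]
  fin_cases a <;> fin_cases b <;> simp [pencil, Fin.ext_iff] <;> ring

lemma isHermitian_pencil (x : Fin 5 → ℝ) : (pencil x).IsHermitian := by
  ext a b
  fin_cases a <;> fin_cases b <;> simp [pencil, Matrix.conjTranspose_apply]

lemma quad_pencil (x : Fin 5 → ℝ) (v : Fin 6 → ℝ) :
    star v ⬝ᵥ (pencil x *ᵥ v) = x 0 * v 0 ^ 2 + x 1 * v 1 ^ 2 + x 2 * v 2 ^ 2 + x 3 * v 3 ^ 2
      + ((x 0 + x 1 + x 2 + x 3) * v 4 ^ 2 + 2 * (x 0 + x 1 - x 2 - x 3) * v 4 * v 5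
        + x 4 * v 5 ^ 2) := by
  simp [dotProduct, mulVec, Fin.sum_univ_six, pencil]
  ring

lemma mem_iff (x : Fin 5 → ℝ) : x ∈ spectrahedralCone coeff ↔
    0 ≤ x 0 ∧ 0 ≤ x 1 ∧ 0 ≤ x 2 ∧ 0 ≤ x 3 ∧ 0 ≤ x 4 ∧
      (x 0 + x 1 - x 2 - x 3) ^ 2 ≤ (x 0 + x 1 + x 2 + x 3) * x 4 := by
  unfold spectrahedralCone
  rw [Set.mem_ofPred_eq, sum_coeff, Matrix.posSemidef_iff_dotProduct_mulVec]
  constructor
  · rintro ⟨-, h⟩
    simp only [quad_pencil] at h
    have h0 := h ![1, 0, 0, 0, 0, 0]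
    have h1 := h ![0, 1, 0, 0, 0, 0]
    have h2 := h ![0, 0, 1, 0, 0, 0]
    have h3 := h ![0, 0, 0, 1, 0, 0]
    have h4 := h ![0, 0, 0, 0, 0, 1]
    have h5 := h ![0, 0, 0, 0, x 4, -(x 0 + x 1 - x 2 - x 3)]
    have h6 := h ![0, 0, 0, 0, -(x 0 + x 1 - x 2 - x 3), x 0 + x 1 + x 2 + x 3]
    have h7 := h ![0, 0, 0, 0, 1, -(x 0 + x 1 - x 2 - x 3)]
    simp at h0 h1 h2 h3 h4 h5 h6 h7
    refine ⟨h0, h1, h2, h3, h4, ?_⟩
    by_contra hc
    push Not at hc
    rcases h4.eq_or_lt with h40 | h40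
    · rw [← h40] at h7 hc
      -- the sum must vanish as well
      rcases (by positivity : 0 ≤ x 0 + x 1 + x 2 + x 3).eq_or_lt with hs | hs
      · have e0 : x 0 = 0 := by linarith
        have e1 : x 1 = 0 := by linarith
        have e2 : x 2 = 0 := by linarith
        have e3 : x 3 = 0 := by linarith
        rw [e0, e1, e2, e3] at hc
        norm_num at hc
      · rw [← h40] at h6
        nlinarith [h6]
    · nlinarith [h5]
  · rintro ⟨h0, h1, h2, h3, h4, h5⟩
    refine ⟨isHermitian_pencil x, fun v => ?_⟩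
    rw [quad_pencil]
    have key : 0 ≤ (x 0 + x 1 + x 2 + x 3) * v 4 ^ 2 + 2 * (x 0 + x 1 - x 2 - x 3) * v 4 * v 5
        + x 4 * v 5 ^ 2 := by
      rcases (by positivity : 0 ≤ x 0 + x 1 + x 2 + x 3).eq_or_lt with hs | hs
      · rw [← hs] at h5
        have : x 0 + x 1 - x 2 - x 3 = 0 := by nlinarith [sq_nonneg (x 0 + x 1 - x 2 - x 3)]
        rw [← hs, this]
        have := mul_nonneg h4 (sq_nonneg (v 5))
        linarith
      · have : 0 ≤ (x 0 + x 1 + x 2 + x 3) * ((x 0 + x 1 + x 2 + x 3) * v 4 ^ 2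
            + 2 * (x 0 + x 1 - x 2 - x 3) * v 4 * v 5 + x 4 * v 5 ^ 2) := by
          nlinarith [sq_nonneg ((x 0 + x 1 + x 2 + x 3) * v 4 + (x 0 + x 1 - x 2 - x 3) * v 5),
            mul_nonneg (sub_nonneg.2 h5) (sq_nonneg (v 5))]
        exact nonneg_of_mul_nonneg_right this hs
    positivity

/-- The face of the example. -/
def face : Set (Fin 5 → ℝ) :=
  {x | 0 ≤ x 0 ∧ 0 ≤ x 1 ∧ 0 ≤ x 2 ∧ 0 ≤ x 3 ∧ x 4 = 0 ∧ x 0 + x 1 - x 2 - x 3 = 0}

lemma isFace_face : IsFace (spectrahedralCone coeff) face where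
  isClosed := by
    unfold face
    simp only [Set.ofPred_and]
    refine IsClosed.inter ?_ (IsClosed.inter ?_ (IsClosed.inter ?_ (IsClosed.inter ?_
      (IsClosed.inter ?_ ?_))))
    · exact isClosed_le continuous_const (continuous_apply _)
    · exact isClosed_le continuous_const (continuous_apply _)
    · exact isClosed_le continuous_const (continuous_apply _)
    · exact isClosed_le continuous_const (continuous_apply _)
    · exact isClosed_eq (continuous_apply _) continuous_const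
    · exact isClosed_eq (by fun_prop) continuous_const
  zero_mem := by simp [face]
  add_mem := by
    rintro x ⟨h0, h1, h2, h3, h4, h5⟩ y ⟨g0, g1, g2, g3, g4, g5⟩
    refine ⟨?_, ?_, ?_, ?_, ?_, ?_⟩ <;> simp only [Pi.add_apply] <;> linarith
  smul_mem := by
    rintro c hc x ⟨h0, h1, h2, h3, h4, h5⟩
    refine ⟨?_, ?_, ?_, ?_, ?_, ?_⟩ <;> simp only [Pi.smul_apply, smul_eq_mul]
    · positivity
    · positivity
    · positivity
    · positivity
    · rw [h4, mul_zero]
    · have : c * x 0 + c * x 1 - c * x 2 - c * x 3 = c * (x 0 + x 1 - x 2 - x 3) := by ring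
      rw [this, h5, mul_zero]
  subset := by
    rintro x ⟨h0, h1, h2, h3, h4, h5⟩
    rw [mem_iff]
    refine ⟨h0, h1, h2, h3, h4.ge, ?_⟩
    rw [h4, h5]; simp
  face := by
    intro x hx y hy hxy
    rw [mem_iff] at hx hy
    obtain ⟨h0, h1, h2, h3, h4, h5⟩ := hx
    obtain ⟨g0, g1, g2, g3, g4, g5⟩ := hy
    have h := hxy.2.2.2.2.1
    simp only [Pi.add_apply] at h
    have hx4 : x 4 = 0 := by linarith
    have hy4 : y 4 = 0 := by linarith
    rw [hx4] at h5
    rw [hy4] at g5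
    refine ⟨⟨h0, h1, h2, h3, hx4, ?_⟩, ⟨g0, g1, g2, g3, hy4, ?_⟩⟩
    · nlinarith [sq_nonneg (x 0 + x 1 - x 2 - x 3)]
    · nlinarith [sq_nonneg (y 0 + y 1 - y 2 - y 3)]


lemma nonneg_of_forall (u v : ℝ) (h : ∀ N : ℕ, 0 ≤ u + (1 / (2 * (N : ℝ) + 1)) * v) : 0 ≤ u := by
  have h1 : Filter.Tendsto (fun N : ℕ => (2 * (N : ℝ) + 1)) Filter.atTop Filter.atTop :=
    Filter.tendsto_atTop_add_const_right _ _
      (Filter.Tendsto.const_mul_atTop (by norm_num) tendsto_natCast_atTop_atTop)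
  have h2 : Filter.Tendsto (fun N : ℕ => u + (1 / (2 * (N : ℝ) + 1)) * v) Filter.atTop
      (nhds (u + 0 * v)) := by
    refine Filter.Tendsto.const_add _ (Filter.Tendsto.mul_const _ ?_)
    simp only [one_div]
    exact h1.inv_tendsto_atTop
  have h3 := ge_of_tendsto' h2 h
  simpa using h3

/-- The test points `eᵢ + N (eₐ + e_b) + (2N+1)⁻¹ e₄`. -/
lemma test_mem (i a b : Fin 5) (hi : i = 0 ∨ i = 1 ∨ i = 2 ∨ i = 3) (ha : a = 0 ∨ a = 1)
    (hb : b = 2 ∨ b = 3) (N : ℕ) :
    (Pi.single i 1 + (N : ℝ) • (Pi.single a 1 + Pi.single b 1)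
      + (1 / (2 * (N : ℝ) + 1)) • Pi.single 4 1 : Fin 5 → ℝ) ∈ spectrahedralCone coeff := by
  have hN : (0 : ℝ) ≤ N := Nat.cast_nonneg N
  have hp : (0 : ℝ) < 2 * (N : ℝ) + 1 := by positivity
  have hinv : (2 * (N : ℝ) + 1) * (2 * (N : ℝ) + 1)⁻¹ = 1 := mul_inv_cancel₀ hp.ne'
  rw [mem_iff]
  rcases hi with rfl | rfl | rfl | rfl <;> rcases ha with rfl | rfl <;> rcases hb with rfl | rfl <;>
    simp [Fin.ext_iff] <;>
    first
      | (refine ⟨?_, ?_, ?_⟩ <;> first | positivity | nlinarith [hinv])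
      | (refine ⟨?_, ?_⟩ <;> first | positivity | nlinarith [hinv])


lemma not_exposed : ¬ IsProjectionallyExposed (spectrahedralCone coeff) face := by
  rintro ⟨P, hP, hPK⟩
  -- `P` fixes the face pointwise and maps the cone into the face
  have hfix : ∀ x ∈ face, P x = x := by
    intro x hx
    rw [← hPK] at hx
    obtain ⟨k, -, rfl⟩ := hx
    exact LinearMap.congr_fun hP k
  have hmap : ∀ x ∈ spectrahedralCone coeff, P x ∈ face := fun x hx => by
    rw [← hPK]; exact Set.mem_image_of_mem _ hx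
  -- generators of the face
  have hgen : ∀ a b : Fin 5, (a = 0 ∨ a = 1) → (b = 2 ∨ b = 3) →
      P (Pi.single a 1) + P (Pi.single b 1) = Pi.single a 1 + Pi.single b 1 := by
    intro a b ha hb
    rw [← map_add]
    apply hfix
    rcases ha with rfl | rfl <;> rcases hb with rfl | rfl <;>
      simp [face, Fin.ext_iff]
  -- values at the test points
  have htest : ∀ i a b : Fin 5, (i = 0 ∨ i = 1 ∨ i = 2 ∨ i = 3) → (a = 0 ∨ a = 1) →
      (b = 2 ∨ b = 3) → ∀ N : ℕ,
      P (Pi.single i 1) + (N : ℝ) • (Pi.single a 1 + Pi.single b 1)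
        + (1 / (2 * (N : ℝ) + 1)) • P (Pi.single 4 1) ∈ face := by
    intro i a b hi ha hb N
    have h := hmap _ (test_mem i a b hi ha hb N)
    rw [map_add, map_add, map_smul, map_smul, map_add, hgen a b ha hb] at h
    exact h
  have hpos : ∀ i a b j : Fin 5, (i = 0 ∨ i = 1 ∨ i = 2 ∨ i = 3) → (a = 0 ∨ a = 1) →
      (b = 2 ∨ b = 3) → (j = 0 ∨ j = 1 ∨ j = 2 ∨ j = 3) → a ≠ j → b ≠ j →
      0 ≤ P (Pi.single i 1) j := by
    intro i a b j hi ha hb hj haj hbj
    apply nonneg_of_forall _ (P (Pi.single 4 1) j)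
    intro N
    have h := htest i a b hi ha hb N
    have h' : 0 ≤ (P (Pi.single i 1) + (N : ℝ) • (Pi.single a 1 + Pi.single b 1)
        + (1 / (2 * (N : ℝ) + 1)) • P (Pi.single 4 1) : Fin 5 → ℝ) j := by
      rcases hj with rfl | rfl | rfl | rfl
      · exact h.1
      · exact h.2.1
      · exact h.2.2.1
      · exact h.2.2.2.1
    simpa [Pi.single_apply, haj.symm, hbj.symm] using h'
  -- the linear equation of the face
  have hlin : P (Pi.single 0 1) 0 + P (Pi.single 0 1) 1 - P (Pi.single 0 1) 2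
      - P (Pi.single 0 1) 3 = 0 := by
    have h0 := (htest 0 0 2 (by simp) (by simp) (by simp) 0).2.2.2.2.2
    have h1 := (htest 0 0 2 (by simp) (by simp) (by simp) 1).2.2.2.2.2
    simp [Fin.ext_iff] at h0 h1
    linarith
  have e02 := hgen 0 2 (by simp) (by simp)
  have e03 := hgen 0 3 (by simp) (by simp)
  have e12 := hgen 1 2 (by simp) (by simp)
  have a1 := congrFun e02 1
  have a3 := congrFun e02 3
  have a0 := congrFun e02 0
  have b2 := congrFun e03 2
  have c0 := congrFun e12 0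
  simp [Fin.ext_iff] at a0 a1 a3 b2 c0
  have p01 := hpos 0 0 2 1 (by simp) (by simp) (by simp) (by simp) (by decide) (by decide)
  have p21 := hpos 2 0 2 1 (by simp) (by simp) (by simp) (by simp) (by decide) (by decide)
  have p03 := hpos 0 0 2 3 (by simp) (by simp) (by simp) (by simp) (by decide) (by decide)
  have p23 := hpos 2 0 2 3 (by simp) (by simp) (by simp) (by simp) (by decide) (by decide)
  have p02 := hpos 0 0 3 2 (by simp) (by simp) (by simp) (by simp) (by decide) (by decide)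
  have p32 := hpos 3 0 3 2 (by simp) (by simp) (by simp) (by simp) (by decide) (by decide)
  have p20 := hpos 2 1 2 0 (by simp) (by simp) (by simp) (by simp) (by decide) (by decide)
  have p10 := hpos 1 1 2 0 (by simp) (by simp) (by simp) (by simp) (by decide) (by decide)
  linarith

lemma linearIndependent_coeff : LinearIndependent ℝ coeff := by
  rw [Fintype.linearIndependent_iff]
  intro g hg
  have hg' : pencil g = 0 := by rw [← sum_coeff, hg]
  intro i
  fin_cases i
  · exact congrFun (congrFun hg' 0) 0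
  · exact congrFun (congrFun hg' 1) 1
  · exact congrFun (congrFun hg' 2) 2
  · exact congrFun (congrFun hg' 3) 3
  · exact congrFun (congrFun hg' 5) 5

lemma posDef_pencil_one : (pencil (fun _ => 1)).PosDef := by
  rw [Matrix.posDef_iff_dotProduct_mulVec]
  refine ⟨isHermitian_pencil _, fun {v} hv => ?_⟩
  rw [quad_pencil]
  by_contra hc
  push Not at hc
  apply hv
  have h0 := sq_nonneg (v 0)
  have h1 := sq_nonneg (v 1)
  have h2 := sq_nonneg (v 2)
  have h3 := sq_nonneg (v 3)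
  have h4 := sq_nonneg (v 4)
  have h5 := sq_nonneg (v 5)
  have z0 : v 0 = 0 := pow_eq_zero_iff (two_ne_zero) |>.1 (by linarith)
  have z1 : v 1 = 0 := pow_eq_zero_iff (two_ne_zero) |>.1 (by linarith)
  have z2 : v 2 = 0 := pow_eq_zero_iff (two_ne_zero) |>.1 (by linarith)
  have z3 : v 3 = 0 := pow_eq_zero_iff (two_ne_zero) |>.1 (by linarith)
  have z4 : v 4 = 0 := pow_eq_zero_iff (two_ne_zero) |>.1 (by linarith)
  have z5 : v 5 = 0 := pow_eq_zero_iff (two_ne_zero) |>.1 (by linarith)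
  ext i
  fin_cases i <;> simpa

/-- **A spectrahedral cone need not be projectionally exposed.**  There are five linearly
independent symmetric `6 × 6` matrices, with a positive definite combination, such that the
(pointed, full-dimensional) spectrahedral cone they define in `ℝ⁵` has a face `F` which is not
the image of the cone under any linear projection. -/
theorem result :
    ∃ A : Fin 5 → Matrix (Fin 6) (Fin 6) ℝ,
      (∀ i, (A i).IsSymm) ∧ LinearIndependent ℝ A ∧ (∃ x : Fin 5 → ℝ, (∑ i, x i • A i).PosDef) ∧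
      ∃ F : Set (Fin 5 → ℝ), IsFace (spectrahedralCone A) F ∧
        ¬ IsProjectionallyExposed (spectrahedralCone A) F := by
  refine ⟨coeff, fun i => ?_, linearIndependent_coeff, ⟨fun _ => 1, ?_⟩, face, isFace_face,
    not_exposed⟩
  · have h := isHermitian_pencil (Pi.single i 1)
    exact h
  · rw [sum_coeff]
    exact posDef_pencil_one

end Pool.Agent.Results.MP_55559b_an.NotPExposed
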